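import Pool.Agent.helper35.LV.Spec

/-!
# Project lv (MP_a2a22c_al), row L3C: a degenerate element
-/

set_option autoImplicit false

namespace Pool.Agent.LV

open Matrix Pool.Agent.H48SL Pool.Agent.UG

theorem L3C (hL3A : L3A_stmt) : L3C_stmt := by
  intro H hZ F hF hPV i j k hij hjk hik h hh c e hc heq
  set FQ : MQ 3 := F.map (Int.cast : ℤ → ℚ) with hFQ
  have hdet : FQ.det ≠ 0 := by
    have h1 : FQ.det = ((F.det : ℤ) : ℚ) := by
      have h2 := (Int.castRingHom ℚ).map_det F
      rw [eq_intCast] at h2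
      rw [h2]
      rfl
    rw [h1]
    exact_mod_cast hF
  have hu : IsUnit FQ.det := isUnit_iff_ne_zero.mpr hdet
  have h1 : FQ * FQ⁻¹ = 1 := Matrix.mul_nonsing_inv _ hu
  have h2 : FQ⁻¹ * FQ = 1 := Matrix.nonsing_inv_mul _ hu
  set G : MQ 3 := FQ⁻¹ with hG
  set w : Fin 3 → ℚ := Pi.single j c + Pi.single i e with hw
  set u : Fin 3 → ℚ := Pi.single k 1 with huu
  have hS : Matrix.single j k c + Matrix.single i k e = vecMulVec w u := by
    ext a b
    simp only [hw, huu, Matrix.add_apply, Matrix.single_apply, vecMulVec_apply, Pi.add_apply, Pi.single_apply]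
    simp only [@eq_comm _ a j, @eq_comm _ a i, @eq_comm _ b k]
    by_cases hb : k = b
    · simp only [hb, and_true, if_true, mul_one]
    · simp only [hb, and_false, if_false, mul_zero, add_zero]
  have hqg : qg h = 1 + vecMulVec (FQ *ᵥ w) (u ᵥ* G) := by
    have h3 : qg h = qg h * FQ * G := by rw [mul_assoc, h1, mul_one]
    rw [h3, heq, nn, Matrix.single_zero, add_zero, add_assoc, hS, mul_add, mul_one, add_mul, h1,
      Matrix.mul_vecMulVec, Matrix.vecMulVec_mul]
  have hcol : castV (fun p => F p k) = FQ *ᵥ u := by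
    funext p
    simp only [huu, Matrix.mulVec_single_one]
    rfl
  have hwk : u ⬝ᵥ w = 0 := by
    simp only [huu, hw, single_dotProduct, one_mul, Pi.add_apply, Pi.single_apply]
    rw [if_neg (Ne.symm hjk), if_neg (Ne.symm hik), add_zero]
  have hdot : ∀ x : Fin 3 → ℚ, (u ᵥ* G) ⬝ᵥ (FQ *ᵥ x) = u ⬝ᵥ x := by
    intro x
    rw [← Matrix.dotProduct_mulVec, Matrix.mulVec_mulVec, h2, Matrix.one_mulVec]
  have huk : u ⬝ᵥ u = 1 := by
    simp [huu]
  refine hL3A H hZ (fun p => F p k) ?_ (hPV k) h hh (FQ *ᵥ w) (u ᵥ* G) ?_ ?_ ?_ hqg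
  · intro h0
    have h3 : castV (fun p => F p k) = 0 := by
      rw [h0]
      funext p
      simp [castV]
    have h4 := hdot u
    rw [← hcol, h3, dotProduct_zero, huk] at h4
    exact zero_ne_one h4
  · intro h0
    have h3 : w = 0 := by
      have h4 := congrArg (fun x => G *ᵥ x) h0
      simp only [Matrix.mulVec_mulVec, h2, Matrix.one_mulVec, Matrix.mulVec_zero] at h4
      exact h4
    have h4 := congrFun h3 j
    simp only [hw, Pi.add_apply, Pi.single_apply, if_true, if_neg (Ne.symm hij), add_zero, Pi.zero_apply] at h4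
    exact hc h4
  · rw [hdot, hwk]
  · rw [hcol, hdot, huk]
    exact one_ne_zero

end Pool.Agent.LV
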